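import Mathlib
import Pool.Agent.V11285.Pac1
import Pool.Agent.V11285.Pac2
import Pool.Agent.V11285.Pac3

/-!
# A field over which all O-acyclic varieties have points and whose Galois group is not procyclic

We construct a subfield `E` of `ℂ` which is pseudo algebraically closed, so that every
geometrically integral `E`-scheme locally of finite type has a rational point, and in which
`2`, `3`, `6` are not squares, so that `E(√2, √3)` is Galois over `E` with group `(ℤ/2)²`.

`E` is the union of a chain of countable subfields of `ℂ`. In each step one adjoins the coordinates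
of a generic point of a geometrically integral affine variety; its function field is a regular
extension, so `2`, `3`, `6` do not become squares.
-/

set_option autoImplicit false

open AlgebraicGeometry CategoryTheory CategoryTheory.Limits

namespace Pool.Agent.Results.MP_023059_nt.PacCounterexample

attribute [local instance] MvPolynomial.gradedAlgebra

/-- Projective space of dimension `n` over `K` with its structure morphism to `Spec K`. -/
noncomputable def projHom (K : Type) [Field K] (n : ℕ) :
    Proj (MvPolynomial.homogeneousSubmodule (Fin (n + 1)) K) ⟶ Spec (CommRingCat.of K) :=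
  Proj.toSpecZero (MvPolynomial.homogeneousSubmodule (Fin (n + 1)) K) ≫
    Spec.map (CommRingCat.ofHom
      (algebraMap K (MvPolynomial.homogeneousSubmodule (Fin (n + 1)) K 0)))

/-- A variety over `K`: a smooth, projective, geometrically integral `K`-scheme. -/
structure IsVariety {K : Type} [Field K] {X : Scheme.{0}} (f : X ⟶ Spec (CommRingCat.of K)) :
    Prop where
  smooth : Smooth f
  projective : ∃ (n : ℕ) (i : X ⟶ Proj (MvPolynomial.homogeneousSubmodule (Fin (n + 1)) K)),
    IsClosedImmersion i ∧ i ≫ projHom K n = f
  geometricallyIntegral : GeometricallyIntegral f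

/-- The structure sheaf of a scheme as a sheaf of abelian groups. -/
noncomputable def structureSheafAb (X : Scheme.{0}) :
    Sheaf (Opens.grothendieckTopology X) AddCommGrpCat.{0} :=
  (sheafCompose _ (forget₂ RingCat.{0} AddCommGrpCat.{0})).obj X.ringCatSheaf

/-- The ring homomorphism from `K` to the global functions on a `K`-scheme. -/
noncomputable def constants {K : Type} [Field K] {X : Scheme.{0}}
    (f : X ⟶ Spec (CommRingCat.of K)) : K →+* Γ(X, ⊤) :=
  ((Scheme.ΓSpecIso (CommRingCat.of K)).inv ≫ f.appTop).hom

/-- `X` is `𝒪`-acyclic: `dim_K H⁰(X, 𝒪_X) = 1` and `Hⁱ(X, 𝒪_X) = 0` for all `i > 0`. -/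
structure IsOAcyclic {K : Type} [Field K] {X : Scheme.{0}} (f : X ⟶ Spec (CommRingCat.of K)) :
    Prop where
  finrank_eq_one : @Module.finrank K Γ(X, ⊤) _ _ (constants f).toModule = 1
  vanishing : ∀ i : ℕ, 0 < i → Subsingleton (Sheaf.H (structureSheafAb X) i)

/-- Property (A): every `𝒪`-acyclic variety over `K` has a `K`-rational point. -/
def PropertyA (K : Type) [Field K] : Prop :=
  ∀ (X : Scheme.{0}) (f : X ⟶ Spec (CommRingCat.of K)), IsVariety f → IsOAcyclic f →
    ∃ s : Spec (CommRingCat.of K) ⟶ X, s ≫ f = 𝟙 (Spec (CommRingCat.of K))

/-- A topological group is procyclic if some element generates a dense subgroup. -/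
def IsProcyclic (G : Type) [Group G] [TopologicalSpace G] : Prop :=
  ∃ g : G, closure (Subgroup.zpowers g : Set G) = Set.univ

/-- There is a field `K` with property (A) whose absolute Galois group is not procyclic. -/
theorem result : ∃ (K : Type) (_ : Field K),
    PropertyA K ∧ ¬ IsProcyclic Gal(SeparableClosure K/K) := by
  obtain ⟨E, hE1, hE2⟩ := Pool.Agent.V11285.Pac.exists_pac
  refine ⟨E, inferInstance, ?_, Pool.Agent.V11285.Pac.not_procyclic E hE1⟩
  intro X f hX _
  have h1 : GeometricallyIntegral f := hX.geometricallyIntegral
  have h2 : Smooth f := hX.smooth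
  have h3 : LocallyOfFiniteType f := inferInstance
  exact Pool.Agent.V11285.Pac.exists_section E hE2 X f

end Pool.Agent.Results.MP_023059_nt.PacCounterexample
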